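import Mathlib
import Pool.Agent.U208.SIC.Bip

set_option autoImplicit false

/-!
# Bipartite real systems and imaginary systems of lines of a maximal ETF
-/

namespace Pool.Agent.Results.MP_d0f9e0_co.BipartiteSystems

/-- `x` is a maximal equiangular tight frame in `ℂ^d`. -/
def IsMaximalETF (d : ℕ) (x : Fin (d ^ 2) → EuclideanSpace ℂ (Fin d)) : Prop :=
  (∀ i, ‖x i‖ = 1) ∧ ∀ i j, i ≠ j → ‖inner ℂ (x i) (x j)‖ = 1 / Real.sqrt ((d : ℝ) + 1)

/-- The triple product `⟨x_i,x_j⟩⟨x_j,x_k⟩⟨x_k,x_i⟩`. -/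
noncomputable def tripleProduct {d : ℕ} (x : Fin (d ^ 2) → EuclideanSpace ℂ (Fin d))
    (i j k : Fin (d ^ 2)) : ℂ :=
  inner ℂ (x i) (x j) * inner ℂ (x j) (x k) * inner ℂ (x k) (x i)

/-- The quadruple product `⟨x_i,x_j⟩⟨x_j,x_k⟩⟨x_k,x_l⟩⟨x_l,x_i⟩`. -/
noncomputable def quadrupleProduct {d : ℕ} (x : Fin (d ^ 2) → EuclideanSpace ℂ (Fin d))
    (i j k l : Fin (d ^ 2)) : ℂ :=
  inner ℂ (x i) (x j) * inner ℂ (x j) (x k) * inner ℂ (x k) (x l) * inner ℂ (x l) (x i)

/-- The disjoint sets `S` and `T` of lines form a bipartite real system: all quadruple products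
along closed paths which alternate between `S` and `T` are real. (Nothing is required for two lines
of `S` or for two lines of `T`.) -/
def IsBipartiteReal {d : ℕ} (x : Fin (d ^ 2) → EuclideanSpace ℂ (Fin d))
    (S T : Finset (Fin (d ^ 2))) : Prop :=
  Disjoint S T ∧ ∀ i ∈ S, ∀ j ∈ T, ∀ k ∈ S, ∀ l ∈ T, (quadrupleProduct x i j k l).im = 0

/-- All triple products of three different lines of `S` are purely imaginary. -/
def IsImaginarySystem {d : ℕ} (x : Fin (d ^ 2) → EuclideanSpace ℂ (Fin d))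
    (S : Finset (Fin (d ^ 2))) : Prop :=
  ∀ i ∈ S, ∀ j ∈ S, ∀ k ∈ S, i ≠ j → j ≠ k → k ≠ i → (tripleProduct x i j k).re = 0

/-- Discrepancy of the squares of the inner products, for all disjoint sets `S`, `T` of lines and
all choices of phases: their sum over `S × T` has modulus at most `d √(|S||T|) / (d + 1)`. -/
def Discrepancy (d : ℕ) (x : Fin (d ^ 2) → EuclideanSpace ℂ (Fin d)) : Prop :=
  ∀ (S T : Finset (Fin (d ^ 2))) (c c' : Fin (d ^ 2) → ℂ), Disjoint S T →
    (∀ i ∈ S, ‖c i‖ = 1) → (∀ j ∈ T, ‖c' j‖ = 1) →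
    (((d : ℝ) + 1) * ‖∑ i ∈ S, ∑ j ∈ T, (inner ℂ (c i • x i) (c' j • x j) : ℂ) ^ 2‖) ^ 2 ≤
      (d : ℝ) ^ 2 * ((S.card : ℝ) * T.card)

/-- The rectangle law: a bipartite real system has at most `d²` pairs; if, for suitable phases, all
the squares of the inner products between `S` and `T` have real part at least `δ/(d+1)`, then there
are at most `d²/δ²` pairs. -/
def RectangleLaw (d : ℕ) (x : Fin (d ^ 2) → EuclideanSpace ℂ (Fin d)) : Prop :=
  (∀ S T, IsBipartiteReal x S T → S.card * T.card ≤ d ^ 2) ∧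
  ∀ (S T : Finset (Fin (d ^ 2))) (c c' : Fin (d ^ 2) → ℂ) (δ : ℝ), Disjoint S T →
    (∀ i ∈ S, ‖c i‖ = 1) → (∀ j ∈ T, ‖c' j‖ = 1) → 0 ≤ δ →
    (∀ i ∈ S, ∀ j ∈ T, δ ≤ ((d : ℝ) + 1) * ((inner ℂ (c i • x i) (c' j • x j) : ℂ) ^ 2).re) →
    δ ^ 2 * ((S.card : ℝ) * T.card) ≤ (d : ℝ) ^ 2

/-- Imaginary systems have at most `d + 2` lines; if there are `d + 2` lines then `d + 2` is
divisible by four and the lines span a space of dimension `(d+2)/2` only, in which they form a
tight frame. -/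
def ImaginaryLaw (d : ℕ) (x : Fin (d ^ 2) → EuclideanSpace ℂ (Fin d)) : Prop :=
  ∀ S, IsImaginarySystem x S → S.card ≤ d + 2 ∧
    (S.card = d + 2 → 4 ∣ d + 2 ∧
      2 * Module.finrank ℂ (Submodule.span ℂ (x '' (S : Set (Fin (d ^ 2))))) = d + 2 ∧
      ∀ i ∈ S, ∀ l ∈ S, ∑ j ∈ S, (inner ℂ (x i) (x j) * inner ℂ (x j) (x l) : ℂ) =
        2 * inner ℂ (x i) (x l))

/-- **Bipartite and imaginary systems in a maximal ETF.** Every maximal ETF in `ℂ^d` satisfies the
discrepancy bound for the squares of the inner products, the rectangle law for bipartite real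
systems (a single line and the other `d² - 1` lines are such a system, so the bound `d²` is sharp up
to one) and the law for imaginary systems (the four lines for `d = 2` are an imaginary system with
`d + 2` members). -/
theorem result (d : ℕ) (x : Fin (d ^ 2) → EuclideanSpace ℂ (Fin d)) (hx : IsMaximalETF d x) :
    Discrepancy d x ∧ RectangleLaw d x ∧ ImaginaryLaw d x := by
  have hx' : Pool.Agent.H109R2.SIC.IsMaxETF d x := hx
  refine ⟨?_, ⟨?_, ?_⟩, ?_⟩
  · intro S T c c' hST hc hc'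
    exact Pool.Agent.U208.SIC.bip_discrepancy hx' hST hc hc'
  · rintro S T ⟨hST, h⟩
    exact Pool.Agent.U208.SIC.bip_card_le hx' hST h
  · intro S T c c' δ hST hc hc' hδ h
    exact Pool.Agent.U208.SIC.bip_near hx' hST hc hc' δ hδ h
  · intro S hS
    have hI : Pool.Agent.R114.SIC.ImagSys x S := hS
    obtain ⟨c, hc⟩ := (Pool.Agent.R114.SIC.imagSys_iff hx' S).mp hI
    refine ⟨Pool.Agent.R114.SIC.imag_card_le hx' hc, fun hcard => ⟨?_, ?_, ?_⟩⟩
    · exact Pool.Agent.R114.SIC.imag_four_dvd hx' hc hcard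
    · exact Pool.Agent.U208.SIC.imag_finrank hx' hI hcard
    · intro i hi l hl
      exact Pool.Agent.U208.SIC.imag_tight hx' hI hcard hi hl

end Pool.Agent.Results.MP_d0f9e0_co.BipartiteSystems
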