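import Mathlib
import Pool.Agent.U476.SIC.Systems

set_option autoImplicit false

/-!
# Maximal equiangular tight frames: the entrywise cube of the Gram matrix

Let `x` be a maximal equiangular tight frame in `ℂ^d`. The matrix of the cubes of the numbers
`√(d+1) ⟨x_i, x_j⟩`, `i ≠ j`, has all its eigenvalues between `-(d+1)^(3/2)` and `(d-1) √(d+1)`,
although it has `d²` rows with entries of modulus one. It follows that the phases of the triple
products of the lines through a given line have a small third moment; together with the first two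
moments this shows that no phase is taken by much more than a quarter of the pairs of lines, and
that every arc of the circle a little longer than a quarter of the circle contains a positive
proportion of the phases.
-/

namespace Pool.Agent.Results.MP_d0f9e0_co.CubicPhases

open Finset

/-- `x` is a maximal equiangular tight frame in `ℂ^d`. -/
def IsMaximalETF (d : ℕ) (x : Fin (d ^ 2) → EuclideanSpace ℂ (Fin d)) : Prop :=
  (∀ i, ‖x i‖ = 1) ∧ ∀ i j, i ≠ j → ‖inner ℂ (x i) (x j)‖ = 1 / Real.sqrt ((d : ℝ) + 1)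

/-- The normalised triple product of three vectors (of modulus one for three different lines). -/
noncomputable def phase {d : ℕ} (x : Fin (d ^ 2) → EuclideanSpace ℂ (Fin d))
    (i j k : Fin (d ^ 2)) : ℂ :=
  ((Real.sqrt ((d : ℝ) + 1) : ℝ) : ℂ) ^ 3 *
    (inner ℂ (x i) (x j) * inner ℂ (x j) (x k) * inner ℂ (x k) (x i))

/-- The `(d² - 1)(d² - 2)` ordered pairs of two different lines, both different from the line `i`. -/
def pairs (d : ℕ) (i : Fin (d ^ 2)) : Finset (Fin (d ^ 2) × Fin (d ^ 2)) :=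
  univ.filter fun p => p.1 ≠ i ∧ p.2 ≠ i ∧ p.1 ≠ p.2

/-- The Hermitian form of the matrix of the cubes of the numbers `√(d+1) ⟨x_i, x_j⟩`, `i ≠ j`
(with zeros on the diagonal). -/
noncomputable def cubicForm {d : ℕ} (x : Fin (d ^ 2) → EuclideanSpace ℂ (Fin d))
    (b : Fin (d ^ 2) → ℂ) : ℂ :=
  ∑ i, ∑ j ∈ univ.erase i,
    star (b i) * b j * (((Real.sqrt ((d : ℝ) + 1) : ℝ) : ℂ) * inner ℂ (x i) (x j)) ^ 3

/-- Cubes of the triple products of a maximal ETF in `ℂ^d`, `d ≥ 2`.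
(1) The matrix of the cubes of the numbers `√(d+1) ⟨x_i, x_j⟩` has its spectrum in
`[-(d+1)^(3/2), (d-1) √(d+1)]`.
(2) Hence the sum of the cubes of the `(d²-1)(d²-2)` phases through a line is at most
`(d+1)^(3/2) (d²-1)` in modulus.
(3) A set of lines all of whose phases have the cube `1` has at most `1 + (d-1) √(d+1)` lines; a set
of lines all of whose phases have the cube `-1` has at most `1 + (d+1)^(3/2)` lines.
(4) For every line, a given phase is taken by at most `(d²-1)(2 d² + (4 d - 5) √(d+1)) / 8` of the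
pairs, a proportion of at most `1/4 + O(1/√d)`; if `d ≥ 35`, at least four phases occur at every line.
(5) For every line and every arc of half-length `β`, `b = cos β`, `0 < b`, `2 b² < 1`, the number of
the pairs with phase in the arc satisfies the stated lower bound; if `b (1 - 2 b²) √(d+1) ≥ 24`,
these are at least the proportion `b (1 - 2 b²) / (2 (1 - b) (1 + 2 b)²)` of all pairs. -/
theorem result (d : ℕ) (hd : 2 ≤ d) (x : Fin (d ^ 2) → EuclideanSpace ℂ (Fin d))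
    (hx : IsMaximalETF d x) :
    -- (1)
    (∀ b : Fin (d ^ 2) → ℂ, (cubicForm x b).im = 0 ∧
      -(Real.sqrt ((d : ℝ) + 1) ^ 3) * ∑ k, ‖b k‖ ^ 2 ≤ (cubicForm x b).re ∧
      (cubicForm x b).re ≤ ((d : ℝ) - 1) * Real.sqrt ((d : ℝ) + 1) * ∑ k, ‖b k‖ ^ 2) ∧
    -- (2)
    (∀ i, ‖∑ p ∈ pairs d i, phase x i p.1 p.2 ^ 3‖ ≤
      Real.sqrt ((d : ℝ) + 1) ^ 3 * ((d : ℝ) ^ 2 - 1)) ∧
    -- (3)
    (∀ S : Finset (Fin (d ^ 2)),
      ((∀ i ∈ S, ∀ j ∈ S, ∀ k ∈ S, i ≠ j → j ≠ k → k ≠ i → phase x i j k ^ 3 = 1) →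
        (S.card : ℝ) ≤ 1 + ((d : ℝ) - 1) * Real.sqrt ((d : ℝ) + 1)) ∧
      ((∀ i ∈ S, ∀ j ∈ S, ∀ k ∈ S, i ≠ j → j ≠ k → k ≠ i → phase x i j k ^ 3 = -1) →
        (S.card : ℝ) ≤ 1 + Real.sqrt ((d : ℝ) + 1) ^ 3)) ∧
    -- (4)
    (∀ i, ((pairs d i).card : ℝ) = ((d : ℝ) ^ 2 - 1) * ((d : ℝ) ^ 2 - 2) ∧
      (∀ w : ℂ, 8 * ({p | p ∈ pairs d i ∧ phase x i p.1 p.2 = w}.ncard : ℝ) ≤
        ((d : ℝ) ^ 2 - 1) * (2 * (d : ℝ) ^ 2 + (4 * d - 5) * Real.sqrt ((d : ℝ) + 1))) ∧
      (35 ≤ d → 4 ≤ {z | ∃ p ∈ pairs d i, z = phase x i p.1 p.2}.ncard)) ∧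
    -- (5)
    (∀ i, ∀ w : ℂ, ‖w‖ = 1 → ∀ b : ℝ, 0 < b → 2 * b ^ 2 < 1 →
      ((d : ℝ) ^ 2 - 1) * (b * (1 - 2 * b ^ 2) * ((d : ℝ) ^ 2 - 2) -
        (1 - b ^ 2) * ((d : ℝ) - 2) * Real.sqrt ((d : ℝ) + 1) - 4 * b * (1 - b ^ 2) -
        b ^ 2 * Real.sqrt ((d : ℝ) + 1) ^ 3) ≤
      (1 - b) * (1 + 2 * b) ^ 2 *
        ({p | p ∈ pairs d i ∧ b < (star w * phase x i p.1 p.2).re}.ncard : ℝ) ∧
      (5 ≤ d → 24 ≤ b * (1 - 2 * b ^ 2) * Real.sqrt ((d : ℝ) + 1) →
        b * (1 - 2 * b ^ 2) / 2 * ((pairs d i).card : ℝ) ≤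
          (1 - b) * (1 + 2 * b) ^ 2 *
            ({p | p ∈ pairs d i ∧ b < (star w * phase x i p.1 p.2).re}.ncard : ℝ))) := by
  classical
  have hx' : Pool.Agent.H109R2.SIC.IsMaxETF d x := hx
  have hset : ∀ (i : Fin (d ^ 2)) (P : Fin (d ^ 2) × Fin (d ^ 2) → Prop),
      {p | p ∈ pairs d i ∧ P p}.ncard = ((pairs d i).filter P).card := by
    intro i P
    rw [← Set.ncard_coe_finset]
    congr 1
    ext p
    simp
  refine ⟨fun b => ?_, fun i => ?_, fun S => ⟨fun h => ?_, fun h => ?_⟩, fun i => ⟨?_, fun w => ?_,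
    fun hd35 => ?_⟩, fun i w hw b hb hb2 => ⟨?_, fun hd5 hl => ?_⟩⟩
  · refine ⟨?_, Pool.Agent.U476.SIC.off_bounds hx' (by omega) b⟩
    have h := Pool.Agent.U476.SIC.off_real hx' b
    have h2 := congrArg Complex.im h
    rwa [Complex.ofReal_im] at h2
  · obtain ⟨r, hr, h1, h2⟩ := Pool.Agent.U476.SIC.m3 hx' (by omega) i
    have h3 : ∑ p ∈ pairs d i, phase x i p.1 p.2 ^ 3 = (r : ℂ) := hr
    rw [h3, Complex.norm_real, Real.norm_eq_abs, abs_le]
    have hdr : (2 : ℝ) ≤ d := by exact_mod_cast hd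
    have hs : 0 ≤ Real.sqrt ((d : ℝ) + 1) := Real.sqrt_nonneg _
    have hs2 : Real.sqrt ((d : ℝ) + 1) ^ 2 = (d : ℝ) + 1 := Real.sq_sqrt (by positivity)
    refine ⟨by linarith, h2.trans (mul_le_mul_of_nonneg_right ?_ (by nlinarith))⟩
    rw [pow_succ, hs2]
    exact mul_le_mul_of_nonneg_right (by linarith) hs
  · exact Pool.Agent.U476.SIC.cubic_pos hx' (by omega) S h
  · exact Pool.Agent.U476.SIC.cubic_neg hx' (by omega) S h
  · exact Pool.Agent.U476.SIC.m0r i
  · rw [hset i (fun p => phase x i p.1 p.2 = w)]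
    by_cases hw : ‖w‖ = 1
    · exact Pool.Agent.U476.SIC.count_le hx' hd i hw
    · have h0 : (pairs d i).filter (fun p => phase x i p.1 p.2 = w) = ∅ := by
        rw [filter_eq_empty_iff]
        intro p hp hpw
        apply hw
        rw [pairs, mem_filter] at hp
        rw [← hpw]
        exact Pool.Agent.H109R2.Phases.nt_norm hx' hp.2.1.symm hp.2.2.2 hp.2.2.1
      rw [h0, card_empty, Nat.cast_zero, mul_zero]
      have hdr : (2 : ℝ) ≤ d := by exact_mod_cast hd
      apply mul_nonneg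
      · nlinarith
      · have : 0 ≤ (4 * (d : ℝ) - 5) * Real.sqrt ((d : ℝ) + 1) :=
          mul_nonneg (by linarith) (Real.sqrt_nonneg _)
        nlinarith
  · have h := Pool.Agent.U476.SIC.four_phases hx' hd35 i
    have h2 : {z | ∃ p ∈ pairs d i, z = phase x i p.1 p.2} =
        (((pairs d i).image fun p => phase x i p.1 p.2 : Finset ℂ) : Set ℂ) := by
      ext z
      simp only [Set.mem_ofPred_eq, coe_image, Set.mem_image, mem_coe]
      constructor
      · rintro ⟨p, hp, rfl⟩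
        exact ⟨p, hp, rfl⟩
      · rintro ⟨p, hp, rfl⟩
        exact ⟨p, hp, rfl⟩
    rw [h2, Set.ncard_coe_finset]
    refine h.trans (le_of_eq (congrArg card ?_))
    ext z
    simp only [mem_image]
    exact Iff.rfl
  · rw [hset i (fun p => b < (star w * phase x i p.1 p.2).re)]
    exact Pool.Agent.U476.SIC.arc_ge hx' hd i hw hb hb2
  · rw [hset i (fun p => b < (star w * phase x i p.1 p.2).re)]
    exact Pool.Agent.U476.SIC.arc_large hx' hd5 i hw hb hb2 hl

end Pool.Agent.Results.MP_d0f9e0_co.CubicPhases
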