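import Mathlib
import Pool.Agent.U338.SIC.Classify
import Pool.Agent.U338.SIC.Exist

/-!
# MP_d0f9e0_co: classification of the parity-symmetric fiducials over finite abelian groups

A fiducial over a finite abelian group `A` is a vector `x ∈ ℂ^A` whose orbit under the
time-frequency shifts of `A` is a maximal equiangular tight frame. It is called parity-symmetric if
it is an eigenvector of a displaced parity operator `(P x)(k) = η(k) x(c - k)`.

Such an `x` exists if and only if `A` is trivial, `ℤ/2`, `ℤ/3` or `(ℤ/2)³`. If a fiducial over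
`A₁ × A₂`, where `|A₁| > 1` is odd, is an eigenvector of a displaced parity operator of the first
factor, then `|A₂| ≤ |A₁| + 2`, and if `|A₁|` is a prime power then `|A₂| = |A₁| ± 2`.

Idea of the proof. The overlaps of `x` on the first factor are real. Multiplied by
`n = √(|A| + 1)` and recentred they become signs, and the symmetry says that together with the
value `n` at the origin they form an eigenfunction of the symplectic Fourier transform with
eigenvalue `ε |A₁|`; at the origin this reads `n (ε |A₁| - 1) = ∑ (± 1)`. By Galois theory a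
parity-symmetric fiducial is symmetric under the parity of every direct factor of coprime order.
-/

set_option autoImplicit false

namespace Pool.Agent.Results.MP_d0f9e0_co.ParityClassification

open Pool.Agent.N392.Ab Pool.Agent.U338.SIC

universe u v

/-- `x` is an eigenvector of a displaced parity operator `(P x)(k) = η(k) x(c - k)`, where
`c ∈ A` and `η` is a character of `A`. -/
def IsParitySymmetric {A : Type*} [AddCommGroup A] (x : EuclideanSpace ℂ A) : Prop :=
  ∃ (c : A) (η : AddChar A ℂ) (lam : ℂ), ∀ k, η k * x (c - k) = lam * x k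

/-- `x` is an eigenvector of a displaced parity operator `(P x)(k, b) = η(k) x(c - k, b)` of the
first factor of `A₁ × A₂`, where `c ∈ A₁` and `η` is a character of `A₁`. -/
def IsParitySymmetricOnFirst {A₁ A₂ : Type*} [AddCommGroup A₁]
    (x : EuclideanSpace ℂ (A₁ × A₂)) : Prop :=
  ∃ (c : A₁) (η : AddChar A₁ ℂ) (lam : ℂ), ∀ k b, η k * x (c - k, b) = lam * x (k, b)

theorem sym_of {A : Type*} [AddCommGroup A] [Fintype A] {x : EuclideanSpace ℂ A}
    (h : IsParitySymmetric x) : ∃ (c : A) (η : AddChar A ℂ) (lam : ℂ),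
      ∀ k, x (c - k) = lam * (η k * x k) := by
  obtain ⟨c, η, lam, h⟩ := h
  refine ⟨c, -η, lam, fun k => ?_⟩
  rw [AddChar.neg_apply]
  have h1 := char_mul_neg η k
  linear_combination (η (-k)) * h k - (x (c - k)) * h1

theorem par_of_sym {A : Type*} [AddCommGroup A] [Fintype A] {x : EuclideanSpace ℂ A}
    (hx : IsFiducial x) (h : IsParitySymmetric x) :
    ∃ (m : A) (ψ : AddChar A ℂ) (ε : ℂ), Par (fun k => ψ k * x (k + m)) ε := by
  obtain ⟨h1, h2⟩ := (fid_iff x).1 hx
  obtain ⟨c, η, lam, h3⟩ := sym_of h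
  obtain ⟨m, ψ, ε, -, -, h4⟩ := reduce h1 h2 c η lam h3
  exact ⟨m, ψ, ε, h4⟩

/-- centring a displaced parity of the first factor -/
theorem centre {A₁ A₂ : Type*} [AddCommGroup A₁] [Fintype A₁] [AddCommGroup A₂] [Fintype A₂]
    (hodd : Odd (Fintype.card A₁)) {x : EuclideanSpace ℂ (A₁ × A₂)} (hx : IsFiducial x)
    (h : IsParitySymmetricOnFirst x) :
    ∃ y : A₁ × A₂ → ℂ, ov y 0 0 = 1 ∧
      (∀ (a : A₁ × A₂) (χ : AddChar (A₁ × A₂) ℂ), (a ≠ 0 ∨ χ ≠ 0) →
        ov y a χ * starRingEnd ℂ (ov y a χ) = 1 / ((Fintype.card (A₁ × A₂) : ℂ) + 1)) ∧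
      ∃ e : ℤ, (e = 1 ∨ e = -1) ∧ ∀ k b, y (-k, b) = (e : ℂ) * y (k, b) := by
  obtain ⟨h1, h2⟩ := (fid_iff x).1 hx
  obtain ⟨c, η, lam, h3⟩ := h
  obtain ⟨i, hi⟩ := hodd
  obtain ⟨m, hm⟩ : ∃ m : A₁, m + m = c := ⟨(i + 1) • c, by
    have : (i + 1) • c + (i + 1) • c = Fintype.card A₁ • c + c := by
      rw [hi, add_smul, add_smul, one_smul, mul_smul, two_smul]
      abel
    rw [this, card_nsmul_eq_zero, zero_add]⟩
  obtain ⟨ψ, hψ⟩ : ∃ ψ : AddChar A₁ ℂ, ψ + ψ = -η := ⟨-((i + 1) • η), by
    have h4 : Fintype.card A₁ • η = 0 := by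
      ext a
      rw [AddChar.nsmul_apply, ← AddChar.map_nsmul_eq_pow, card_nsmul_eq_zero,
        AddChar.map_zero_eq_one, AddChar.zero_apply]
    have : -((i + 1) • η) + -((i + 1) • η) = -(Fintype.card A₁ • η + η) := by
      rw [hi, add_smul, add_smul, one_smul, mul_smul, two_smul]
      abel
    rw [this, h4, zero_add]⟩
  obtain ⟨h5, h6⟩ := trans_hyp h1 h2 (m, 0) (c1 ψ)
  refine ⟨fun k => c1 ψ k * x (k + (m, 0)), h5, h6, ?_⟩
  have hpar : ∀ k b, c1 (B := A₂) ψ (-k, b) * x ((-k, b) + (m, 0)) =
      (lam * η (-m)) * (c1 (B := A₂) ψ (k, b) * x ((k, b) + (m, 0))) := by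
    intro k b
    rw [c1_apply, c1_apply, Prod.mk_add_mk, Prod.mk_add_mk, add_zero]
    have h7 := h3 (k + m) b
    have e1 : c - (k + m) = -k + m := by rw [← hm]; abel
    rw [e1] at h7
    have e2 : ψ (-k) * η (-k) = ψ k := by
      have e3 : ψ k * ψ k = η (-k) := by
        rw [← AddChar.add_apply, hψ, AddChar.neg_apply]
      rw [← e3]
      have e4 := char_mul_neg ψ k
      linear_combination (ψ k) * e4
    have e5 : η (k + m) * (η (-k) * η (-m)) = 1 := by
      rw [← AddChar.map_add_eq_mul, ← AddChar.map_add_eq_mul]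
      have : k + m + (-k + -m) = 0 := by abel
      rw [this, AddChar.map_zero_eq_one]
    calc ψ (-k) * x (-k + m, b) = ψ (-k) * (η (-k) * η (-m)) * (η (k + m) * x (-k + m, b)) := by
          linear_combination (-(ψ (-k) * x (-k + m, b))) * e5
      _ = (ψ (-k) * η (-k)) * η (-m) * (lam * x (k + m, b)) := by rw [h7]; ring
      _ = _ := by rw [e2]; ring
  obtain ⟨⟨k, b⟩, hk⟩ : ∃ p : A₁ × A₂, c1 (B := A₂) ψ p * x (p + (m, 0)) ≠ 0 := by
    by_contra h
    push Not at h
    have h7 : ov (fun k => c1 (B := A₂) ψ k * x (k + (m, 0))) 0 0 = 0 := by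
      unfold ov
      refine Finset.sum_eq_zero fun k _ => ?_
      have := h k
      simp only [this]
      simp
    rw [h7] at h5
    exact zero_ne_one h5
  have h7 := hpar (-k) b
  rw [neg_neg, hpar k b] at h7
  have h8 : ((lam * η (-m)) * (lam * η (-m)) - 1) *
      (c1 (B := A₂) ψ (k, b) * x ((k, b) + (m, 0))) = 0 := by
    linear_combination -h7
  have h9 := (mul_eq_zero.1 h8).resolve_right hk
  rcases mul_self_eq_one_iff.1 (by linear_combination h9 :
    (lam * η (-m)) * (lam * η (-m)) = 1) with h | h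
  · exact ⟨1, Or.inl rfl, fun k b => by simp only; rw [hpar, h]; simp⟩
  · exact ⟨-1, Or.inr rfl, fun k b => by simp only; rw [hpar, h]; simp⟩

/-- **Theorem.**

(1) A parity-symmetric fiducial over the finite abelian group `A` exists if and only if `A` is
trivial or isomorphic to `ℤ/2`, `ℤ/3` or `(ℤ/2)³`.

(2) Let `A₁` and `A₂` be finite abelian groups, `|A₁| > 1` odd, and let `x` be a fiducial over
`A₁ × A₂` which is an eigenvector of a displaced parity operator of the first factor. Then
`|A₁| |A₂| + 1` is a perfect square and `|A₂| ≤ |A₁| + 2`. If moreover `|A₁|` is a prime power,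
then `|A₂| = |A₁| + 2` or `|A₂| = |A₁| - 2`. -/
theorem result :
    (∀ (A : Type u) [AddCommGroup A] [Fintype A],
      (∃ x : EuclideanSpace ℂ A, IsFiducial x ∧ IsParitySymmetric x) ↔
        (Subsingleton A ∨ Nonempty (A ≃+ ZMod 2) ∨ Nonempty (A ≃+ ZMod 3) ∨
          Nonempty (A ≃+ (Fin 3 → ZMod 2)))) ∧
    (∀ (A₁ : Type u) (A₂ : Type v) [AddCommGroup A₁] [Fintype A₁] [AddCommGroup A₂] [Fintype A₂],
      Odd (Fintype.card A₁) → 1 < Fintype.card A₁ →
      ∀ x : EuclideanSpace ℂ (A₁ × A₂), IsFiducial x → IsParitySymmetricOnFirst x →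
        IsSquare (Fintype.card A₁ * Fintype.card A₂ + 1) ∧
        Fintype.card A₂ ≤ Fintype.card A₁ + 2 ∧
        (IsPrimePow (Fintype.card A₁) →
          Fintype.card A₂ = Fintype.card A₁ + 2 ∨ Fintype.card A₂ + 2 = Fintype.card A₁)) := by
  classical
  refine ⟨?_, ?_⟩
  · intro A _ _
    constructor
    · rintro ⟨x, hx, hsym⟩
      obtain ⟨m, ψ, ε, hpar⟩ := par_of_sym hx hsym
      by_cases hd : 3 ≤ Fintype.card A
      · rcases par_classify hpar hd with h | h
        · exact Or.inr (Or.inr (Or.inl h))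
        · exact Or.inr (Or.inr (Or.inr h))
      · have hpos : 0 < Fintype.card A := Fintype.card_pos
        by_cases h1 : Fintype.card A = 1
        · left
          exact Fintype.card_le_one_iff_subsingleton.1 h1.le
        · right; left
          have h2 : Nat.card A = 2 := by rw [Nat.card_eq_fintype_card]; omega
          have : Fact (Nat.Prime 2) := ⟨Nat.prime_two⟩
          have hc : IsAddCyclic A := isAddCyclic_of_prime_card h2
          have e := zmodAddCyclicAddEquiv hc
          rw [h2] at e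
          exact ⟨e.symm⟩
    · intro h
      have hex : ∃ (x : A → ℂ) (ε : ℂ), Par x ε := by
        rcases h with h | ⟨⟨e⟩⟩ | ⟨⟨e⟩⟩ | ⟨⟨e⟩⟩
        · exact exist_one
        · exact exists_transport e.symm exist_two
        · exact exists_transport e.symm exist_three
        · refine exists_transport e.symm (exist_eight ?_ ?_)
          · simp
          · intro c
            ext i
            have : ∀ a : ZMod 2, a + a = 0 := by decide
            exact this _
      obtain ⟨x, ε, hx⟩ := hex
      refine ⟨WithLp.toLp 2 x, (fid_iff _).2 ⟨hx.nrm, hx.mod⟩, 0, 0, ε, fun k => ?_⟩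
      simp only [AddChar.zero_apply, one_mul, zero_sub]
      exact hx.par k
  · intro A₁ A₂ _ _ _ _ hodd hgt x hx hsym
    obtain ⟨y, h1, h2, e, he, hs⟩ := centre hodd hx hsym
    obtain ⟨n, hn, hle⟩ := part_main h1 h2 e he hs (fun k hk => odd_order_no_two hodd k hk) hgt
    have hle' : (n : ℤ) ≤ Fintype.card A₁ + 1 := by
      rcases he with h | h <;> rw [h] at hle <;> omega
    have hn' : n ^ 2 = Fintype.card A₁ * Fintype.card A₂ + 1 := by
      rw [← Fintype.card_prod]; exact hn
    refine ⟨⟨n, by rw [← hn', sq]⟩, ?_, ?_⟩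
    · by_contra h
      push Not at h
      have h3 : n ≤ Fintype.card A₁ + 1 := by exact_mod_cast hle'
      have h4 : n ^ 2 ≤ (Fintype.card A₁ + 1) ^ 2 := Nat.pow_le_pow_left h3 2
      nlinarith
    · intro hpp
      obtain ⟨q, c, hq, hc, hqc⟩ := (isPrimePow_nat_iff _).1 hpp
      have hq2 : q ≠ 2 := by
        rintro rfl
        rw [← hqc] at hodd
        have : Even (2 ^ c) := (Nat.even_pow.2 ⟨even_two, by omega⟩)
        exact (Nat.not_even_iff_odd.2 hodd) this
      rcases part_prime_power q c hq hq2 hqc.symm n hn hle' hgt with ⟨-, h⟩ | ⟨-, h⟩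
      · exact Or.inl h
      · exact Or.inr h

end Pool.Agent.Results.MP_d0f9e0_co.ParityClassification
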