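import Mathlib
import Pool.Agent.H109R2.SICBase
import Pool.Agent.H109R2.Phases
import Pool.Agent.U208.SIC.Sector

set_option autoImplicit false

/-!
# How the phases of the triples through two lines of a maximal ETF are distributed
-/

namespace Pool.Agent.Results.MP_d0f9e0_co.PhaseSectors

open Finset

/-- `x` is a maximal equiangular tight frame in `ℂ^d`. -/
def IsMaximalETF (d : ℕ) (x : Fin (d ^ 2) → EuclideanSpace ℂ (Fin d)) : Prop :=
  (∀ i, ‖x i‖ = 1) ∧ ∀ i j, i ≠ j → ‖inner ℂ (x i) (x j)‖ = 1 / Real.sqrt ((d : ℝ) + 1)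

/-- The phase of the triple of lines `i`, `j`, `k`: the normalised triple product. -/
noncomputable def phase {d : ℕ} (x : Fin (d ^ 2) → EuclideanSpace ℂ (Fin d))
    (i j k : Fin (d ^ 2)) : ℂ :=
  ((Real.sqrt ((d : ℝ) + 1) : ℝ) : ℂ) ^ 3 *
    (inner ℂ (x i) (x j) * inner ℂ (x j) (x k) * inner ℂ (x k) (x i))

/-- The `d² - 2` lines different from the lines `i` and `j`. -/
def third {d : ℕ} (i j : Fin (d ^ 2)) : Finset (Fin (d ^ 2)) :=
  univ.filter fun k => k ≠ i ∧ k ≠ j

/-- The lines `k` different from `i` and `j` for which the phase of `i`, `k`, `j` lies in the open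
sector `{z : c < Re (ω̄ z)}` of the unit circle, whose bisector is `ω` and whose opening is
`2 arccos c`. -/
noncomputable def inSector {d : ℕ} (x : Fin (d ^ 2) → EuclideanSpace ℂ (Fin d))
    (i j : Fin (d ^ 2)) (ω : ℂ) (c : ℝ) : Finset (Fin (d ^ 2)) :=
  (third i j).filter fun k => c < (star ω * phase x i k j).re

theorem third_eq {d : ℕ} (i j : Fin (d ^ 2)) : third i j = Pool.Agent.H109R2.Phases.others i j := by
  ext k
  simp only [third, mem_filter, mem_univ, true_and, Pool.Agent.H109R2.Phases.others, mem_erase,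
    and_true]
  exact and_comm

theorem card_third {d : ℕ} {i j : Fin (d ^ 2)} (hij : i ≠ j) :
    ((third i j).card : ℝ) = (d : ℝ) ^ 2 - 2 := by
  rw [third_eq]
  have h := Pool.Agent.H109R2.Phases.card_others hij
  have h2 := congrArg Complex.re h
  have e1 : ((Pool.Agent.H109R2.Phases.others i j).card : ℂ).re =
      ((Pool.Agent.H109R2.Phases.others i j).card : ℝ) := Complex.natCast_re _
  have e2 : ((d : ℂ) ^ 2 - 2).re = (d : ℝ) ^ 2 - 2 := by
    rw [Complex.sub_re, sq, Complex.mul_re, Complex.natCast_re, Complex.natCast_im]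
    norm_num
    ring
  rw [e1, e2] at h2
  exact h2

theorem estimate_aux (d r s : ℝ) (hd2 : 2 ≤ d) (hr0 : 0 < r) (hr2 : r ^ 2 = d) (hs0 : 0 ≤ s)
    (hs2 : s ^ 2 = d + 1) : s * (d - 2) + 1 ≤ d * r := by
  have hr1 : 1 ≤ r := by nlinarith
  have h0 : 0 ≤ d * r - 1 := by nlinarith
  have h6 : r ≤ d := by nlinarith
  have h4 : (s * (d - 2)) ^ 2 ≤ (d * r - 1) ^ 2 := by
    rw [mul_pow, hs2]
    have : (d * r - 1) ^ 2 = d ^ 2 * d - 2 * d * r + 1 := by
      rw [← hr2]; ring
    rw [this]
    nlinarith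
  have h5 := Real.sqrt_le_sqrt h4
  rw [Real.sqrt_sq (mul_nonneg hs0 (by linarith)), Real.sqrt_sq h0] at h5
  linarith

theorem estimate (d : ℝ) (hd2 : 2 ≤ d) (ε : ℝ) (hε0 : 0 < ε) (hε : ε ≤ 1 / 2)
    (hdε : 4 / ε ^ 2 ≤ d) (u w : ℝ) (hre : -1 ≤ u) (hre2 : w ≤ 1) :
    ε * (d ^ 2 - 4) / 4 * (2 * (1 - (1 / 2 - ε))) ≤
      (1 / 2 - (1 / 2 - ε)) * (d ^ 2 - 2) - w +
        (1 - (1 / 2 - ε)) * (Real.sqrt (d + 1) * (d - 2)) * u := by
  obtain ⟨s, hs⟩ : ∃ s, s = Real.sqrt (d + 1) := ⟨_, rfl⟩
  obtain ⟨r, hr⟩ : ∃ r, r = Real.sqrt d := ⟨_, rfl⟩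
  have hs0 : 0 ≤ s := hs ▸ Real.sqrt_nonneg _
  have hs2 : s ^ 2 = d + 1 := by rw [hs]; exact Real.sq_sqrt (by linarith)
  have hr0 : 0 < r := by rw [hr]; exact Real.sqrt_pos.mpr (by linarith)
  have hr2 : r ^ 2 = d := by rw [hr]; exact Real.sq_sqrt (by linarith)
  rw [← hs]
  have hA := estimate_aux d r s hd2 hr0 hr2 hs0 hs2
  have hB : d * r ≤ ε * d ^ 2 / 2 := by
    have h6 : 2 ≤ ε * r := by
      have h7 : 4 ≤ (ε * r) ^ 2 := by
        rw [mul_pow, hr2]
        rw [div_le_iff₀ (by positivity)] at hdε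
        linarith
      nlinarith [mul_pos hε0 hr0]
    have h8 : d ^ 2 = (d * r) * r := by rw [mul_assoc, ← sq r, hr2]; ring
    rw [h8]
    have h9 : 0 < d * r := mul_pos (by linarith) hr0
    have h10 := mul_le_mul_of_nonneg_left h6 h9.le
    calc d * r = d * r * 2 / 2 := by ring
      _ ≤ d * r * (ε * r) / 2 := by linarith
      _ = ε * (d * r * r) / 2 := by ring
  have h9 : 0 ≤ s * (d - 2) := mul_nonneg hs0 (by linarith)
  have hC : -(s * (d - 2)) ≤ (1 - (1 / 2 - ε)) * (s * (d - 2)) * u := by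
    have h10 : 0 ≤ (1 - (1 / 2 - ε)) * (s * (d - 2)) := mul_nonneg (by linarith) h9
    have h11 : (1 - (1 / 2 - ε)) * (s * (d - 2)) ≤ 1 * (s * (d - 2)) :=
      mul_le_mul_of_nonneg_right (by linarith) h9
    have h12 := mul_le_mul_of_nonneg_left hre h10
    linarith
  have hD : 0 ≤ d ^ 2 - 4 := by nlinarith
  have hE : ε * (d ^ 2 - 4) / 4 * (2 * (1 - (1 / 2 - ε))) ≤ ε * (d ^ 2 - 4) / 4 * 2 :=
    mul_le_mul_of_nonneg_left (by linarith) (by positivity)
  have hF : ε * (d ^ 2 - 4) / 4 * 2 = ε * d ^ 2 / 2 - 2 * ε := by ring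
  have hG : (1 / 2 - (1 / 2 - ε)) * (d ^ 2 - 2) = ε * d ^ 2 - 2 * ε := by ring
  rw [hG]
  linarith

/-- **Distribution of the phases over a pair of lines.** Let `x` be a maximal ETF in `ℂ^d`,
`d ≥ 2`, and let `i ≠ j` be two of its lines. Consider the `d² - 2` phases of the triples
`i, k, j`, where `k` runs through the other lines.
* Their sum is `√(d+1) (d-2)` and the sum of their squares is `-2`; the squares of their imaginary
  parts add up to exactly `d²/2`.
* Sector law: a lower bound for the number of the phases in every open sector; its main term is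
  `(1 - 2c)/(4(1 - c)) · d²` for a sector of opening `2 arccos c > 120°`.
* At least `d²/4` of the phases have positive imaginary part, at least `d²/4` have negative
  imaginary part, and at most `d²/2 - 2` of them are real (this is attained for `d = 2`).
* If `0 < ε ≤ 1/2` and `d ≥ 4/ε²` then at least `ε (d² - 4)/4` of the phases lie in the sector
  `{Re (ω̄ z) > 1/2 - ε}`, for every direction `ω`. So for every fixed opening larger than `120°`
  only finitely many dimensions have a maximal ETF with a pair of lines whose phases avoid an open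
  sector of that opening. -/
theorem result (d : ℕ) (hd : 2 ≤ d) (x : Fin (d ^ 2) → EuclideanSpace ℂ (Fin d))
    (hx : IsMaximalETF d x) (i j : Fin (d ^ 2)) (hij : i ≠ j) :
    ((∑ k ∈ third i j, phase x i k j = ((Real.sqrt ((d : ℝ) + 1) * ((d : ℝ) - 2) : ℝ) : ℂ)) ∧
      (∑ k ∈ third i j, phase x i k j ^ 2 = -2) ∧
      ∑ k ∈ third i j, (phase x i k j).im ^ 2 = (d : ℝ) ^ 2 / 2) ∧
    (∀ (ω : ℂ) (c : ℝ), ‖ω‖ = 1 → c < 1 →
      ((1 / 2 - c) * ((d : ℝ) ^ 2 - 2) - (ω ^ 2).re
          + (1 - c) * (Real.sqrt ((d : ℝ) + 1) * ((d : ℝ) - 2)) * ω.re) / (2 * (1 - c)) ≤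
        ((inSector x i j ω c).card : ℝ)) ∧
    ((d : ℝ) ^ 2 / 4 ≤ (((third i j).filter fun k => 0 < (phase x i k j).im).card : ℝ) ∧
      (d : ℝ) ^ 2 / 4 ≤ (((third i j).filter fun k => (phase x i k j).im < 0).card : ℝ) ∧
      (((third i j).filter fun k => (phase x i k j).im = 0).card : ℝ) ≤ (d : ℝ) ^ 2 / 2 - 2) ∧
    ∀ (ω : ℂ) (ε : ℝ), ‖ω‖ = 1 → 0 < ε → ε ≤ 1 / 2 → 4 / ε ^ 2 ≤ d →
      ε * ((d : ℝ) ^ 2 - 4) / 4 ≤ ((inSector x i j ω (1 / 2 - ε)).card : ℝ) := by
  have hx' : Pool.Agent.H109R2.SIC.IsMaxETF d x := hx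
  have hunit : ∀ k ∈ third i j, ‖phase x i k j‖ = 1 := by
    intro k hk
    rw [third, mem_filter] at hk
    exact Pool.Agent.H109R2.Phases.nt_norm hx' (Ne.symm hk.2.1) hk.2.2 (Ne.symm hij)
  have h1 : ∑ k ∈ third i j, phase x i k j =
      ((Real.sqrt ((d : ℝ) + 1) * ((d : ℝ) - 2) : ℝ) : ℂ) := by
    rw [third_eq]
    have := Pool.Agent.H109R2.Phases.sum1 hx' hij
    push_cast
    exact this
  have h2 : ∑ k ∈ third i j, phase x i k j ^ 2 = -2 := by
    rw [third_eq]
    exact Pool.Agent.H109R2.Phases.sum2 hx' hij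
  have hcard := card_third hij
  have h3 : ∑ k ∈ third i j, (phase x i k j).im ^ 2 = (d : ℝ) ^ 2 / 2 := by
    rw [Pool.Agent.U208.SIC.sum_im_sq _ _ hunit, h2, hcard]
    norm_num
  have hsec : ∀ (ω : ℂ) (c : ℝ), ‖ω‖ = 1 → c < 1 →
      ((1 / 2 - c) * ((d : ℝ) ^ 2 - 2) - (ω ^ 2).re
          + (1 - c) * (Real.sqrt ((d : ℝ) + 1) * ((d : ℝ) - 2)) * ω.re) / (2 * (1 - c)) ≤
        ((inSector x i j ω c).card : ℝ) := by
    intro ω c hω hc
    have h := Pool.Agent.U208.SIC.sector (third i j) (fun k => phase x i k j) hunit ω hω c hc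
    rw [h1, h2, hcard] at h
    have e1 : (star ω ^ 2 * (-2)).re = -2 * (ω ^ 2).re := by
      have e0 : ((star ω) ^ 2).re = (ω ^ 2).re := by
        rw [← star_pow]
        exact Complex.conj_re _
      rw [show (star ω ^ 2 * (-2) : ℂ) = ((-2 : ℝ) : ℂ) * star ω ^ 2 by push_cast; ring,
        Complex.re_ofReal_mul, e0]
    have e2 : (star ω * ((Real.sqrt ((d : ℝ) + 1) * ((d : ℝ) - 2) : ℝ) : ℂ)).re =
        (Real.sqrt ((d : ℝ) + 1) * ((d : ℝ) - 2)) * ω.re := by
      rw [Complex.re_mul_ofReal]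
      simp
      ring
    rw [e1, e2] at h
    rw [div_le_iff₀ (by linarith)]
    have e3 : ((inSector x i j ω c).card : ℝ) = (((third i j).filter fun k =>
      c < (star ω * (fun k => phase x i k j) k).re).card : ℝ) := rfl
    rw [e3]
    linarith
  have hpos : (d : ℝ) ^ 2 / 4 ≤ (((third i j).filter fun k => 0 < (phase x i k j).im).card : ℝ) := by
    have h := hsec Complex.I 0 (by simp) one_pos
    have e : inSector x i j Complex.I 0 = (third i j).filter fun k => 0 < (phase x i k j).im := by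
      unfold inSector
      congr 1
      funext k
      have : (star Complex.I * phase x i k j).re = (phase x i k j).im := by
        simp
      rw [this]
    rw [e] at h
    simp only [Complex.I_sq, Complex.neg_re, Complex.one_re, Complex.I_re] at h
    linarith
  have hneg : (d : ℝ) ^ 2 / 4 ≤ (((third i j).filter fun k => (phase x i k j).im < 0).card : ℝ) := by
    have h := hsec (-Complex.I) 0 (by simp) one_pos
    have e : inSector x i j (-Complex.I) 0 =
        (third i j).filter fun k => (phase x i k j).im < 0 := by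
      unfold inSector
      congr 1
      funext k
      have : (star (-Complex.I) * phase x i k j).re = -(phase x i k j).im := by
        simp
      rw [this]
      exact propext neg_pos
    rw [e] at h
    simp only [neg_sq, Complex.I_sq, Complex.neg_re, Complex.one_re, Complex.I_re] at h
    linarith
  refine ⟨⟨h1, h2, h3⟩, hsec, ⟨hpos, hneg, ?_⟩, ?_⟩
  · -- real phases
    have hsplit : ((third i j).filter fun k => (phase x i k j).im = 0).card +
        ((third i j).filter fun k => 0 < (phase x i k j).im).card +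
        ((third i j).filter fun k => (phase x i k j).im < 0).card ≤ (third i j).card := by
      rw [← card_union_of_disjoint, ← card_union_of_disjoint]
      · apply card_le_card
        intro k hk
        simp only [mem_union, mem_filter] at hk
        rcases hk with (h | h) | h
        · exact h.1
        · exact h.1
        · exact h.1
      · rw [disjoint_left]
        intro k hk hk'
        simp only [mem_union, mem_filter] at hk hk'
        rcases hk with h | h
        · linarith [h.2, hk'.2]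
        · linarith [h.2, hk'.2]
      · rw [disjoint_left]
        intro k hk hk'
        simp only [mem_filter] at hk hk'
        linarith [hk.2, hk'.2]
    have hs : (((third i j).filter fun k => (phase x i k j).im = 0).card : ℝ) +
        (((third i j).filter fun k => 0 < (phase x i k j).im).card : ℝ) +
        (((third i j).filter fun k => (phase x i k j).im < 0).card : ℝ) ≤ (d : ℝ) ^ 2 - 2 := by
      rw [← hcard]
      exact_mod_cast hsplit
    linarith
  · intro ω ε hω hε0 hε hdε
    have h := hsec ω (1 / 2 - ε) hω (by linarith)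
    refine le_trans ?_ h
    rw [le_div_iff₀ (by linarith)]
    have hre : -1 ≤ ω.re := by
      have := Complex.abs_re_le_norm ω
      rw [hω] at this
      exact (abs_le.mp this).1
    have hre2 : (ω ^ 2).re ≤ 1 := by
      have := Complex.abs_re_le_norm (ω ^ 2)
      rw [norm_pow, hω, one_pow] at this
      exact (abs_le.mp this).2
    exact estimate d (by exact_mod_cast hd) ε hε0 hε hdε _ _ hre hre2

end Pool.Agent.Results.MP_d0f9e0_co.PhaseSectors
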